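import Pool.Agent.H52.DEC

set_option autoImplicit false

/-!
# Dean's question for claw-free graphs

`ClawFree G`: no vertex of `G` has three pairwise non-adjacent neighbours.
`HasCycle G n`: `G` has a cycle of length `n`.
-/

namespace Pool.Agent.Results.MP_f599e5_co.ClawFree

/-- No vertex has three pairwise non-adjacent neighbours. -/
def ClawFree {V : Type} (G : SimpleGraph V) : Prop :=
  ∀ v a b c : V, G.Adj v a → G.Adj v b → G.Adj v c → a ≠ b → a ≠ c → b ≠ c →
    G.Adj a b ∨ G.Adj a c ∨ G.Adj b c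

/-- `G` has a cycle of length `n`. -/
def HasCycle {V : Type} (G : SimpleGraph V) (n : ℕ) : Prop :=
  ∃ (v : V) (p : G.Walk v v), p.IsCycle ∧ p.length = n

theorem sharp (k : ℕ) : ClawFree (⊤ : SimpleGraph (Fin (k - 1))) ∧
    (∀ v, (⊤ : SimpleGraph (Fin (k - 1))).degree v = k - 2) ∧
    ∀ n, k ∣ n → ¬ HasCycle (⊤ : SimpleGraph (Fin (k - 1))) n := by
  refine ⟨?_, ?_, ?_⟩
  · intro v a b c _ _ _ hab _ _
    exact Or.inl hab
  · intro v
    rw [SimpleGraph.complete_graph_degree, Fintype.card_fin]
    omega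
  · rintro n hkn ⟨v, p, hp, hpn⟩
    have h1 : p.support.tail.length ≤ Fintype.card (Fin (k - 1)) :=
      hp.support_nodup.length_le_card
    rw [List.length_tail, SimpleGraph.Walk.length_support, Fintype.card_fin, hpn] at h1
    have h2 := hp.three_le_length
    rw [hpn] at h2
    have h3 := Nat.le_of_dvd (by omega) hkn
    omega

/-- **Claw-free graphs.** Let `k ≥ 5`. (1) Every finite nonempty claw-free graph `G` in which every
vertex has degree at least `k - 1` contains a cycle whose length is divisible by `k`. More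
precisely, `G` contains a cycle of length exactly `k`, or cycles of the `k` consecutive lengths
`n, n + 1, …, n + k - 1` for some `n > k`. (2) The degree bound `k - 1` cannot be replaced by
`k - 2`: the complete graph on `k - 1` vertices has no cycle of length divisible by `k`. -/
theorem result (k : ℕ) (hk : 5 ≤ k) :
    (∀ (V : Type) [Fintype V] [Nonempty V] [DecidableEq V] (G : SimpleGraph V)
        [DecidableRel G.Adj], ClawFree G → (∀ v, k - 1 ≤ G.degree v) →
      (∃ n, k ∣ n ∧ HasCycle G n) ∧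
      (HasCycle G k ∨ ∃ n, k < n ∧ ∀ t < k, HasCycle G (n + t))) ∧
    (ClawFree (⊤ : SimpleGraph (Fin (k - 1))) ∧
      (∀ v, (⊤ : SimpleGraph (Fin (k - 1))).degree v = k - 2) ∧
      ∀ n, k ∣ n → ¬ HasCycle (⊤ : SimpleGraph (Fin (k - 1))) n) := by
  refine ⟨?_, sharp k⟩
  intro V _ _ _ G _ hc hd
  have hmain : HasCycle G k ∨ ∃ n, k < n ∧ ∀ t < k, HasCycle G (n + t) :=
    Pool.Agent.H52.DE.main_dean hc k hk (fun v => ⟨G.neighborFinset v,
      fun a => SimpleGraph.mem_neighborFinset G v a, by
        rw [SimpleGraph.card_neighborFinset_eq_degree]; exact hd v⟩)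
  refine ⟨?_, hmain⟩
  rcases hmain with h | ⟨n, hn, h⟩
  · exact ⟨k, dvd_refl k, h⟩
  · by_cases h0 : n % k = 0
    · exact ⟨n + 0, by rw [add_zero]; exact Nat.dvd_of_mod_eq_zero h0, h 0 (by omega)⟩
    · have h3 : n % k < k := Nat.mod_lt _ (by omega)
      refine ⟨n + (k - n % k), ⟨n / k + 1, ?_⟩, h _ (by omega)⟩
      have h4 := Nat.div_add_mod n k
      have h5 : k * (n / k + 1) = k * (n / k) + k := by ring
      rw [h5]
      omega

end Pool.Agent.Results.MP_f599e5_co.ClawFree
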